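import Pool.Agent.H.MP_827d9d_co.Pos2

/-!
# p-characteristic sets of matroids are not invariant under duality

The matroid is the linear matroid over `ℚ` of the fifteen vectors
`(1;0,0,0)`, `(-s;e_i)` for `i = 1,2,3` and `s = 0,1,2,3`, `(0;e_1-e_2)` and `(0;e_1-e_3)`.
It has a representation of degree `15`, coming from a difference matrix over `ZMod 15`,
while its dual has no representation of degree `3 m` for any `m` prime to `3`.
-/

namespace Pool.Agent.Results.MP_827d9d_co.DualityFails

open Pool.Agent.H.MP_827d9d_co

/-- There are a finite matroid `M` and an integer `v ≥ 2`, namely `v = 15`, with `v` in the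
p-characteristic set of `M` and not in the p-characteristic set of its dual. -/
theorem result :
    ∃ (N : Type) (_ : Finite N) (M : Matroid N), M.E = Set.univ ∧
      15 ∈ pCharSet M ∧ 15 ∉ pCharSet M✶ :=
  ⟨El, inferInstance, linMat vec, rfl, fifteen_mem, fifteen_not_mem⟩

end Pool.Agent.Results.MP_827d9d_co.DualityFails
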